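import Mathlib
import Pool.Agent.H4.RC1

set_option maxHeartbeats 400000

open Set Filter Topology Function TopologicalSpace Pointwise

namespace Pool.Agent.Results.MP_a90892_an.Yes

open Pool.Agent.H4.RC1

/-- A Furstenberg family. -/
def Furstenberg (A : Set (Set ℕ)) : Prop :=
  (∀ a ∈ A, ∀ b, a ⊆ b → b ∈ A) ∧ ∅ ∉ A

/-- Topological `(l, A)`-recurrence. -/
def TopRec {Y : Type*} [TopologicalSpace Y] (g : Y → Y) (l : ℕ) (A : Set (Set ℕ)) : Prop :=
  ∀ U : Set Y, IsOpen U → U.Nonempty → {n | ∃ y, ∀ j ≤ l, g^[j * n] y ∈ U} ∈ A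

variable {X : Type*} [AddCommGroup X] [Module ℝ X] [TopologicalSpace X]

/-- The hyperextension of `f` to the non-empty compact sets. -/
def hyper (f : X →L[ℝ] X) (K : NonemptyCompacts X) : NonemptyCompacts X :=
  K.map f f.continuous

/-- The non-empty compact convex sets, with the induced Vietoris topology. -/
abbrev CC (X : Type*) [AddCommGroup X] [Module ℝ X] [TopologicalSpace X] :=
  {K : NonemptyCompacts X // Convex ℝ (K : Set X)}

/-- The restriction of the hyperextension to compact convex sets. -/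
def hyperC (f : X →L[ℝ] X) (K : CC X) : CC X :=
  ⟨hyper f K.1, K.2.linear_image (f : X →ₗ[ℝ] X)⟩

variable [IsTopologicalAddGroup X] [ContinuousSMul ℝ X] [LocallyConvexSpace ℝ X]

theorem abstr (f : X →L[ℝ] X) (l : ℕ) {A : Set (Set ℕ)} (hup : ∀ a ∈ A, ∀ b, a ⊆ b → b ∈ A)
    {Y : Type*} [tY : TopologicalSpace Y] (c : Y → Set X)
    (hc : tY = TopologicalSpace.induced c (TopologicalSpace.vietoris X))
    (hne : ∀ K, (c K).Nonempty) (g : Y → Y) (hg : ∀ K, c (g K) = f '' c K)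
    (h1 : ∀ F G : Set X, F.Finite → F.Nonempty → Convex ℝ G → F ⊆ G → ∃ K, F ⊆ c K ∧ c K ⊆ G)
    (h2 : ∀ K G, IsOpen G → c K ⊆ G → ∃ G', IsOpen G' ∧ c K ⊆ G' ∧ ∀ F : Set X, F.Finite →
      F.Nonempty → ∃ K', F ⊆ c K' ∧ ∀ m, f^[m] '' F ⊆ G' → f^[m] '' c K' ⊆ G) :
    TopRec g l A ↔ univ ∈ A ∧ ∀ (s : Finset (Set X)) (U : Set X → Set X),
      (∀ i ∈ s, IsOpen (U i) ∧ (U i).Nonempty) → Ret f l s U ∈ A := by
  classical
  letI := TopologicalSpace.vietoris X
  have hind : IsInducing c := ⟨hc⟩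
  have hgm : ∀ m K, c (g^[m] K) = f^[m] '' c K := by
    intro m K
    induction m with
    | zero => simp
    | succ m ih => rw [iterate_succ_apply', hg, ih, iterate_succ', image_comp]
  constructor
  · intro h
    have huniv : univ ∈ A := by
      obtain ⟨K, -⟩ := h1 {0} univ (finite_singleton _) (singleton_nonempty _) convex_univ
        (subset_univ _)
      exact hup _ (h univ isOpen_univ ⟨K, trivial⟩) _ (subset_univ _)
    refine ⟨huniv, merge f l hup huniv fun s x q hq hs δ hδ => ?_⟩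
    have ho : IsOpen (c ⁻¹' ((Nb s x q δ).powerset ∩
        ⋂ k ∈ s, {t | (t ∩ {y | q (y - x k) < δ}).Nonempty})) := by
      refine IsOpen.preimage hind.continuous ((Nb_open s x hq δ).powerset_vietoris.inter
        (isOpen_biInter_finset fun k _ => vietoris.isOpen_inter_nonempty_of_isOpen ?_))
      exact isOpen_lt (hq.comp (continuous_id.sub continuous_const)) continuous_const
    obtain ⟨K, hK1, hK2⟩ := h1 (x '' s) _ (s.finite_toSet.image x)
      (hs.coe_sort.elim fun a => ⟨_, a.1, a.2, rfl⟩) (Nb_convex s x q δ)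
      (by rintro _ ⟨k, hk, rfl⟩; exact mem_Nb x q hδ hk)
    refine hup _ (h _ ho ⟨K, hK2, mem_iInter₂.2 fun k hk =>
      ⟨x k, hK1 ⟨k, hk, rfl⟩, by simpa using hδ⟩⟩) _ ?_
    rintro n ⟨K', hK'⟩ k hk
    have h0 := (hK' 0 (Nat.zero_le _)).2
    rw [zero_mul, iterate_zero, id] at h0
    obtain ⟨y, hy1, hy2⟩ := mem_iInter₂.1 h0 k hk
    refine ⟨y, hy2, fun j hj => ?_⟩
    have h3 : c (g^[j * n] K') ⊆ Nb s x q δ := (hK' j hj).1
    rw [hgm] at h3
    exact h3 ⟨y, hy1, rfl⟩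
  · rintro ⟨-, h⟩ O hO ⟨K, hK⟩
    obtain ⟨O', hO', rfl⟩ := hind.isOpen_iff.1 hO
    obtain ⟨_, ⟨u, ⟨hu1, hu2⟩, rfl⟩, ⟨hK1, hK2⟩, hsub⟩ :=
      vietoris.isTopologicalBasis.exists_subset_of_mem_open hK hO'
    obtain ⟨G', hG1, hG2, hG3⟩ := h2 K _ (isOpen_sUnion hu2) hK1
    refine hup _ (h hu1.toFinset (fun i => i ∩ G') fun i hi => ?_) _ fun n hn => ?_
    · rw [hu1.mem_toFinset] at hi
      obtain ⟨y, hy1, hy2⟩ := hK2 i hi
      exact ⟨(hu2 i hi).inter hG1, y, hy2, hG2 hy1⟩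
    · choose! y hy using hn
      obtain ⟨w, hw⟩ := hne K
      obtain ⟨i0, hi0, -⟩ := hK1 hw
      obtain ⟨K', hK3, hK4⟩ := hG3 (y '' u) (hu1.image y) ⟨_, i0, hi0, rfl⟩
      refine ⟨K', fun j hj => hsub ⟨?_, fun i hi => ?_⟩⟩
      · rw [hgm]
        apply hK4
        rintro _ ⟨_, ⟨i, hi, rfl⟩, rfl⟩
        exact (hy i (hu1.mem_toFinset.2 hi) j hj).2
      · rw [hgm]
        exact ⟨_, ⟨y i, hK3 ⟨i, hi, rfl⟩, rfl⟩, (hy i (hu1.mem_toFinset.2 hi) j hj).1⟩

theorem result (X : Type*) [AddCommGroup X] [Module ℝ X] [TopologicalSpace X]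
    [IsTopologicalAddGroup X] [ContinuousSMul ℝ X] [LocallyConvexSpace ℝ X]
    (f : X →L[ℝ] X) (l : ℕ) (A : Set (Set ℕ)) (hA : Furstenberg A) :
    TopRec (hyper f) l A ↔ TopRec (hyperC f) l A := by
  have e1 := abstr f l hA.1 (Y := NonemptyCompacts X) (fun K => (K : Set X)) rfl
    (fun K => K.nonempty) (hyper f) (fun K => rfl)
    (fun F G hF hF2 _ hFG => ⟨⟨⟨F, hF.isCompact⟩, hF2⟩, subset_rfl, hFG⟩)
    (fun K G hG hKG => ⟨G, hG, hKG, fun F hF hF2 =>
      ⟨⟨⟨F, hF.isCompact⟩, hF2⟩, subset_rfl, fun m hm => hm⟩⟩)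
  have e2 := abstr f l hA.1 (Y := CC X) (fun K => (K.1 : Set X))
    (induced_compose (f := (Subtype.val : CC X → NonemptyCompacts X))
      (g := fun K : NonemptyCompacts X => (K : Set X)))
    (fun K => K.1.nonempty) (hyperC f) (fun K => rfl)
    (fun F G hF hF2 hG hFG => ⟨⟨⟨⟨convexHull ℝ F, hF.isCompact_convexHull ℝ⟩, hF2.convexHull⟩,
      convex_convexHull ℝ F⟩, subset_convexHull ℝ F, convexHull_min hFG hG⟩)
    (fun K G hG hKG => by
      obtain ⟨V, hV, hKV⟩ := compact_open_separated_add_right K.1.isCompact hG hKG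
      obtain ⟨Z, ⟨hZ0, hZ1, hZ2⟩, hZV⟩ :=
        (LocallyConvexSpace.convex_open_basis_zero ℝ X).mem_iff.1 hV
      refine ⟨(K.1 : Set X) + Z, hZ1.add_left, fun w hw => ⟨w, hw, 0, hZ0, add_zero w⟩,
        fun F hF hF2 => ⟨⟨⟨⟨convexHull ℝ F, hF.isCompact_convexHull ℝ⟩, hF2.convexHull⟩,
          convex_convexHull ℝ F⟩, subset_convexHull ℝ F, fun m hm => ?_⟩⟩
      obtain ⟨T, hT⟩ := iter_lin f m
      have hT' : f^[m] = (T : X →ₗ[ℝ] X) := funext fun w => (hT w).symm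
      change f^[m] '' convexHull ℝ F ⊆ G
      rw [hT'] at hm ⊢
      rw [LinearMap.image_convexHull]
      exact (convexHull_min hm (K.2.add hZ2)).trans ((add_subset_add_left hZV).trans hKV))
  rw [e1, e2]

end Pool.Agent.Results.MP_a90892_an.Yes
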